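import Pool.Agent.H922Z.NU.Defs

set_option autoImplicit false

open Complex Metric Set
open scoped ContDiff

namespace Pool.Agent.H708Z.NU

open BK Pool.Agent.H922Z.NU

variable {n : ℕ}

lemma good_empty (ρ : En n → ℝ) : Good ρ ∅ :=
  ⟨univ, fun _ => 1, 1, 0, isOpen_univ, differentiableOn_const _, fun _ _ => one_ne_zero, one_pos,
    fun _ _ _ _ _ _ => subset_univ _, ⟨1, fun _ _ => by simp⟩, fun _ => ⟨0, fun _ _ _ h => h.elim⟩⟩

lemma good_union {ρ : En n → ℝ} {F₁ F₂ : Set (En n)} (h₁ : Good ρ F₁) (h₂ : Good ρ F₂) :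
    Good ρ (F₁ ∪ F₂) := by
  obtain ⟨U₁, g₁, c₁, K₁, o₁, d₁, z₁, p₁, b₁, ⟨B₁, m₁⟩, e₁⟩ := h₁
  obtain ⟨U₂, g₂, c₂, K₂, o₂, d₂, z₂, p₂, b₂, ⟨B₂, m₂⟩, e₂⟩ := h₂
  refine ⟨U₁ ∩ U₂, fun z => g₁ z * g₂ z, min c₁ c₂, max K₁ K₂, o₁.inter o₂,
    (d₁.mono inter_subset_left).mul (d₂.mono inter_subset_right),
    fun z hz => mul_ne_zero (z₁ z hz.1) (z₂ z hz.2), lt_min p₁ p₂, ?_, ⟨B₁ * B₂, ?_⟩, ?_⟩
  · intro z hz s hs hs1 hF
    refine subset_inter
      ((ball_subset_ball ?_).trans (b₁ z hz s hs hs1 fun x hx => hF x (Or.inl hx)))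
      ((ball_subset_ball ?_).trans (b₂ z hz s hs hs1 fun x hx => hF x (Or.inr hx)))
    · exact mul_le_mul (min_le_left _ _) (pow_le_pow_of_le_one hs.le hs1 (le_max_left _ _))
        (by positivity) p₁.le
    · exact mul_le_mul (min_le_right _ _) (pow_le_pow_of_le_one hs.le hs1 (le_max_right _ _))
        (by positivity) p₂.le
  · intro z hz
    rw [norm_mul]
    exact mul_le_mul (m₁ z hz.1) (m₂ z hz.2) (norm_nonneg _) ((norm_nonneg _).trans (m₁ z hz.1))
  · intro N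
    obtain ⟨C₁, h₁⟩ := e₁ N
    obtain ⟨C₂, h₂⟩ := e₂ N
    refine ⟨max (C₁ * B₂) (B₁ * C₂), fun z hz x hx => ?_⟩
    rw [norm_mul]
    rcases hx with hx | hx
    · calc ‖g₁ z‖ * ‖g₂ z‖ ≤ (C₁ * ‖z - x‖ ^ N) * B₂ :=
            mul_le_mul (h₁ z hz.1 x hx) (m₂ z hz.2) (norm_nonneg _)
              ((norm_nonneg _).trans (h₁ z hz.1 x hx))
        _ = (C₁ * B₂) * ‖z - x‖ ^ N := by ring
        _ ≤ _ := mul_le_mul_of_nonneg_right (le_max_left _ _) (by positivity)
    · calc ‖g₁ z‖ * ‖g₂ z‖ ≤ B₁ * (C₂ * ‖z - x‖ ^ N) :=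
            mul_le_mul (m₁ z hz.1) (h₂ z hz.2 x hx) (norm_nonneg _)
              ((norm_nonneg _).trans (m₁ z hz.1))
        _ = (B₁ * C₂) * ‖z - x‖ ^ N := by ring
        _ ≤ _ := mul_le_mul_of_nonneg_right (le_max_right _ _) (by positivity)

lemma good_local (h1 : T1) (h2 : T2b) (hL : LocalH) (r : En n → ℝ) (hr : ContDiff ℝ ∞ r)
    (hK : IsCompact {z | r z ≤ 0}) (hd : ∀ z, r z = 0 → fderiv ℝ r z ≠ 0)
    (hl : ∀ z, r z = 0 → ∀ w : En n, w ≠ 0 → 0 < Lv r z w)
    (F : Set (En n)) (hF : ∀ x ∈ F, r x = 0) (f : En n → ℂ)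
    (hf : DifferentiableOn ℂ f {z | r z < 0}) (hf0 : ∀ z, r z < 0 → f z ≠ 0)
    (hf1 : ∀ z, r z < 0 → ‖f z‖ ≤ 1)
    (hfN : ∀ N : ℕ, ∃ C : ℝ, ∀ z, r z < 0 → ∀ x ∈ F, ‖f z‖ ≤ C * ‖z - x‖ ^ N)
    (p : En n) (hp : r p = 0) : ∃ R : ℝ, 0 < R ∧ Good r (F ∩ closedBall p (R / 4)) := by
  classical
  obtain ⟨R, hR, hloc⟩ := hL n r hr p hp (hd p hp) (hl p hp)
  refine ⟨R, hR, ?_⟩
  rcases (F ∩ closedBall p (R / 4)).eq_empty_or_nonempty with he | hne
  · rw [he]; exact good_empty r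
  set F' := F ∩ closedBall p (R / 4) with hF'
  obtain ⟨θ, K, H, C₀, hθ, hH, hHb, hHf⟩ := hloc F' hne
    (inter_subset_right.trans (closedBall_subset_closedBall (by linarith)))
    (fun x hx => hF x hx.1) f hf hf0 hf1
  set U₁ : Set (En n) := {z | z ∈ ball p R ∧ r z < θ * infDist z F' ^ K} with hU₁
  have hU₁o : IsOpen U₁ := isOpen_ball.inter
    (isOpen_lt hr.continuous (continuous_const.mul ((continuous_infDist_pt F').pow K)))
  obtain ⟨Ω, hΩo, hΩb, hΩp, hΩK, hΩW⟩ := h2 n r hr hK hl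
    ((closedBall p (3 * R / 4) \ ball p (R / 2))ᶜ ∪ {z | r z < θ * (R / 4) ^ K})
    ((isClosed_closedBall.sdiff isOpen_ball).isOpen_compl.union
      (isOpen_lt hr.continuous continuous_const))
    (fun z hz => Or.inr (lt_of_le_of_lt (show r z ≤ 0 from hz)
      (show 0 < θ * (R / 4) ^ K by positivity)))
  have hA : ∀ z ∈ Ω ∩ (ball p (3 * R / 4) \ closedBall p (R / 2)),
      z ∈ U₁ ∧ R / 4 ≤ infDist z F' := by
    intro z hz
    have hd' : R / 4 ≤ infDist z F' := by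
      refine (le_infDist hne).2 (fun x hx => ?_)
      have a1 : dist x p ≤ R / 4 := hx.2
      have a2 : ¬ dist z p ≤ R / 2 := hz.2.2
      have := dist_triangle z x p
      linarith
    refine ⟨⟨ball_subset_ball (by linarith) hz.2.1, ?_⟩, hd'⟩
    rcases hΩW hz.1 with h | h
    · exact (h ⟨ball_subset_closedBall hz.2.1, fun h' => hz.2.2 (ball_subset_closedBall h')⟩).elim
    · exact lt_of_lt_of_le h (mul_le_mul_of_nonneg_left
        (pow_le_pow_left₀ (by positivity) hd' K) hθ.le)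
  obtain ⟨M, hM⟩ := hHb (R / 4) (by positivity)
  obtain ⟨v₁, v₂, hv₁, hv₂, hv⟩ := h1 n Ω hΩo hΩb hΩp p (R / 2) (3 * R / 4) (by positivity)
    (by linarith) H M (hH.mono fun z hz => (hA z hz).1)
    (fun z hz => hM z (hA z hz).1.1 (hA z hz).1.2 (hA z hz).2)
  let G : En n → ℂ := fun z => if z ∈ ball p (3 * R / 4) then H z - v₁ z else v₂ z
  have hG1 : ∀ z ∈ ball p (3 * R / 4), G z = H z - v₁ z := fun z hz => if_pos hz
  have hG2 : ∀ z ∈ Ω \ closedBall p (R / 2), G z = v₂ z := by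
    intro z hz
    by_cases hb : z ∈ ball p (3 * R / 4)
    · rw [hG1 z hb, hv z ⟨hz.1, hb, hz.2⟩]; ring
    · exact if_neg hb
  have hV₁o : IsOpen (U₁ ∩ (Ω ∩ ball p (3 * R / 4))) := hU₁o.inter (hΩo.inter isOpen_ball)
  have hV₂o : IsOpen (Ω \ closedBall p (R / 2)) := hΩo.sdiff isClosed_closedBall
  have hGd : DifferentiableOn ℂ G ((U₁ ∩ (Ω ∩ ball p (3 * R / 4))) ∪ (Ω \ closedBall p (R / 2))) := by
    intro z hz
    rcases hz with hz | hz
    · have : DifferentiableOn ℂ G (U₁ ∩ (Ω ∩ ball p (3 * R / 4))) :=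
        ((hH.mono inter_subset_left).sub (hv₁.mono inter_subset_right)).congr
          (fun w hw => hG1 w hw.2.2)
      exact (this.differentiableAt (hV₁o.mem_nhds hz)).differentiableWithinAt
    · have : DifferentiableOn ℂ G (Ω \ closedBall p (R / 2)) := hv₂.congr hG2
      exact (this.differentiableAt (hV₂o.mem_nhds hz)).differentiableWithinAt
  obtain ⟨κ, hκ, hκΩ⟩ := hK.exists_cthickening_subset_open hΩo hΩK
  have hKc : IsCompact (cthickening κ {z | r z ≤ 0}) := hK.cthickening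
  obtain ⟨B₁, hB₁⟩ := (hKc.inter_right (isClosed_closedBall (x := p) (ε := 5 * R / 8))).exists_bound_of_continuousOn
    (hv₁.continuousOn.mono fun z hz => ⟨hκΩ hz.1, closedBall_subset_ball (by linarith) hz.2⟩)
  obtain ⟨B₂, hB₂⟩ := (hKc.diff (isOpen_ball (x := p) (ε := 5 * R / 8))).exists_bound_of_continuousOn
    (hv₂.continuousOn.mono fun z hz =>
      ⟨hκΩ hz.1, fun h => hz.2 (closedBall_subset_ball (by linarith) h)⟩)
  obtain ⟨L, hLip⟩ := ((hr.of_le (by norm_cast) : ContDiff ℝ 1 r).locallyLipschitz.locallyLipschitzOn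
    (s := closedBall p R)).exists_lipschitzOnWith_of_compact (isCompact_closedBall p R)
  have hdecay : ∀ N : ℕ, ∃ C : ℝ, ∀ z ∈ ((U₁ ∩ (Ω ∩ ball p (3 * R / 4))) ∪
      (Ω \ closedBall p (R / 2))) ∩ thickening κ {z | r z ≤ 0}, ∀ x ∈ F',
      ‖Complex.exp (-G z)‖ ≤ C * ‖z - x‖ ^ N := by
    intro N
    obtain ⟨C₂, hC₂⟩ := hfN (2 * N)
    refine ⟨max (Real.sqrt (|C₀| * |C₂|) * 2 ^ N * Real.exp B₁)
      (Real.exp B₂ * (8 / (3 * R)) ^ N), fun z hz x hx => ?_⟩
    have hzc : z ∈ cthickening κ {z | r z ≤ 0} := thickening_subset_cthickening _ _ hz.2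
    have hzΩ : z ∈ Ω := hκΩ hzc
    by_cases hb : z ∈ ball p (5 * R / 8)
    · have hb' : z ∈ ball p (3 * R / 4) := ball_subset_ball (by linarith) hb
      have hzU : z ∈ U₁ := by
        rcases hz.1 with h | h
        · exact h.1
        · exact (hA z ⟨hzΩ, hb', h.2⟩).1
      obtain ⟨z', hz', hzz, hle⟩ := hHf z hzU.1 hzU.2
      have e1 : ‖z' - x‖ ≤ 2 * ‖z - x‖ := by
        have a1 : infDist z F' ≤ ‖z - x‖ := by
          rw [← dist_eq_norm]; exact infDist_le_dist_of_mem hx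
        have a2 : ‖z' - x‖ ≤ ‖z' - z‖ + ‖z - x‖ := norm_sub_le_norm_sub_add_norm_sub _ _ _
        linarith
      have e2 : ‖f z'‖ ≤ |C₂| * (2 * ‖z - x‖) ^ (2 * N) :=
        (hC₂ z' hz' x hx.1).trans (mul_le_mul (le_abs_self _)
          (pow_le_pow_left₀ (norm_nonneg _) e1 _) (by positivity) (abs_nonneg _))
      have e3 : ‖Complex.exp (-H z)‖ ≤ Real.sqrt (|C₀| * |C₂|) * (2 * ‖z - x‖) ^ N := by
        refine (sq_le_sq₀ (norm_nonneg _) (by positivity)).1 ?_
        rw [mul_pow, Real.sq_sqrt (by positivity), ← pow_mul, mul_comm N 2, mul_assoc]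
        exact hle.trans (mul_le_mul (le_abs_self _) e2 (norm_nonneg _) (abs_nonneg _))
      have e4 : ‖Complex.exp (v₁ z)‖ ≤ Real.exp B₁ :=
        (Complex.norm_exp_le_exp_norm _).trans
          (Real.exp_le_exp.2 (hB₁ z ⟨hzc, ball_subset_closedBall hb⟩))
      have e5 : Complex.exp (-G z) = Complex.exp (-H z) * Complex.exp (v₁ z) := by
        rw [hG1 z hb', ← Complex.exp_add]; congr 1; ring
      rw [e5, norm_mul]
      calc _ ≤ (Real.sqrt (|C₀| * |C₂|) * (2 * ‖z - x‖) ^ N) * Real.exp B₁ :=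
            mul_le_mul e3 e4 (norm_nonneg _) (by positivity)
        _ = (Real.sqrt (|C₀| * |C₂|) * 2 ^ N * Real.exp B₁) * ‖z - x‖ ^ N := by
            rw [mul_pow]; ring
        _ ≤ _ := mul_le_mul_of_nonneg_right (le_max_left _ _) (by positivity)
    · have hz2 : z ∈ Ω \ closedBall p (R / 2) :=
        ⟨hzΩ, fun h => hb (closedBall_subset_ball (by linarith) h)⟩
      have e1 : 3 * R / 8 ≤ ‖z - x‖ := by
        have a1 : dist x p ≤ R / 4 := hx.2
        have a2 : ¬ dist z p < 5 * R / 8 := hb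
        have := dist_triangle z x p
        rw [← dist_eq_norm]
        linarith
      have e2 : 1 ≤ (8 / (3 * R)) ^ N * ‖z - x‖ ^ N := by
        rw [← mul_pow]
        refine one_le_pow₀ ?_
        rw [div_mul_eq_mul_div, le_div_iff₀ (by positivity)]
        linarith
      have e3 : ‖Complex.exp (-G z)‖ ≤ Real.exp B₂ := by
        refine (Complex.norm_exp_le_exp_norm _).trans (Real.exp_le_exp.2 ?_)
        rw [norm_neg, hG2 z hz2]
        exact hB₂ z ⟨hzc, hb⟩
      calc _ ≤ Real.exp B₂ * 1 := by rw [mul_one]; exact e3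
        _ ≤ Real.exp B₂ * ((8 / (3 * R)) ^ N * ‖z - x‖ ^ N) :=
            mul_le_mul_of_nonneg_left e2 (by positivity)
        _ = (Real.exp B₂ * (8 / (3 * R)) ^ N) * ‖z - x‖ ^ N := by ring
        _ ≤ _ := mul_le_mul_of_nonneg_right (le_max_right _ _) (by positivity)
  have hL0 : (0 : ℝ) ≤ L := L.2
  refine ⟨((U₁ ∩ (Ω ∩ ball p (3 * R / 4))) ∪ (Ω \ closedBall p (R / 2))) ∩
    thickening κ {z | r z ≤ 0}, fun z => Complex.exp (-G z),
    min (min κ (R / 2)) (min (1 / 2) (θ / (2 ^ K * (L + 1)))), K + 1,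
    (hV₁o.union hV₂o).inter isOpen_thickening, (hGd.mono inter_subset_left).neg.cexp,
    fun z _ => Complex.exp_ne_zero _, by positivity, ?_, ?_, hdecay⟩
  · intro z hz s hs hs1 hsF w hw
    set c := min (min κ (R / 2)) (min (1 / 2) (θ / (2 ^ K * (L + 1)))) with hc
    have hc0 : 0 < c := by positivity
    have c1 : c ≤ κ := (min_le_left _ _).trans (min_le_left _ _)
    have c2 : c ≤ R / 2 := (min_le_left _ _).trans (min_le_right _ _)
    have c3 : c ≤ 1 / 2 := (min_le_right _ _).trans (min_le_left _ _)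
    have c4 : c ≤ θ / (2 ^ K * (L + 1)) := (min_le_right _ _).trans (min_le_right _ _)
    have hw' : dist w z < c * s ^ (K + 1) := hw
    have s1 : s ^ (K + 1) ≤ s ^ K := pow_le_pow_of_le_one hs.le hs1 (by omega)
    have s2 : s ^ (K + 1) ≤ s := by
      simpa using pow_le_pow_of_le_one hs.le hs1 (show 1 ≤ K + 1 by omega)
    have w1 : dist w z < c * s ^ K := hw'.trans_le (mul_le_mul_of_nonneg_left s1 hc0.le)
    have w2 : dist w z < c * s := hw'.trans_le (mul_le_mul_of_nonneg_left s2 hc0.le)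
    have w3 : dist w z < c := w2.trans_le (by nlinarith)
    have hth : w ∈ thickening κ {z | r z ≤ 0} :=
      mem_thickening_iff.2 ⟨z, hz, w3.trans_le c1⟩
    have hwΩ : w ∈ Ω := hκΩ (thickening_subset_cthickening _ _ hth)
    refine ⟨?_, hth⟩
    by_cases hb : w ∈ closedBall p (R / 2)
    · refine Or.inl ⟨⟨closedBall_subset_ball (by linarith) hb, ?_⟩, hwΩ,
        closedBall_subset_ball (by linarith) hb⟩
      have hb' : dist w p ≤ R / 2 := hb
      have hzb : z ∈ closedBall p R := by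
        have := dist_triangle z w p
        rw [dist_comm z w] at this
        show dist z p ≤ R
        linarith
      have l1 := hLip.dist_le_mul w (closedBall_subset_closedBall (by linarith) hb) z hzb
      have l2 : r w ≤ L * dist w z := by
        have := le_abs_self (r w - r z)
        rw [Real.dist_eq] at l1
        have hz' : r z ≤ 0 := hz
        linarith
      have l3 : s / 2 ≤ infDist w F' := by
        refine (le_infDist hne).2 (fun x hx => ?_)
        have a1 := hsF x hx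
        rw [← dist_eq_norm] at a1
        have := dist_triangle z w x
        rw [dist_comm z w] at this
        nlinarith
      have l4 : (L + 1) * c ≤ θ / 2 ^ K := by
        rw [le_div_iff₀ (by positivity)] at c4 ⊢
        linarith
      calc r w ≤ L * dist w z := l2
        _ ≤ L * (c * s ^ K) := mul_le_mul_of_nonneg_left w1.le hL0
        _ < (L + 1) * c * s ^ K := by
            have : 0 < c * s ^ K := by positivity
            nlinarith
        _ ≤ θ / 2 ^ K * s ^ K := mul_le_mul_of_nonneg_right l4 (by positivity)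
        _ = θ * (s / 2) ^ K := by rw [div_pow]; ring
        _ ≤ θ * infDist w F' ^ K :=
            mul_le_mul_of_nonneg_left (pow_le_pow_left₀ (by positivity) l3 K) hθ.le
    · exact Or.inr ⟨hwΩ, hb⟩
  · obtain ⟨C, hC⟩ := hdecay 0
    obtain ⟨x, hx⟩ := hne
    exact ⟨C, fun z hz => by simpa using hC z hz x hx⟩

theorem t8 : T8 := by
  intro h1 h2a h2b hL n ρ hρ hK hd hl F hF f hf hf0 ⟨C, hC⟩ hfN
  obtain ⟨r, hr, e1, e2, hd', hl'⟩ := h2a n ρ hρ hK hd hl
  have e3 : ∀ z, r z ≤ 0 ↔ ρ z ≤ 0 := fun z => by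
    rw [le_iff_lt_or_eq, le_iff_lt_or_eq, e1, e2]
  have s1 : {z | r z ≤ 0} = {z | ρ z ≤ 0} := Set.ext e3
  have s2 : {z | r z < 0} = {z | ρ z < 0} := Set.ext e1
  have hK' : IsCompact {z | r z ≤ 0} := s1 ▸ hK
  have ha : (0 : ℝ) < |C| + 1 := by positivity
  have hn : ∀ z, ‖(((|C| + 1)⁻¹ : ℝ) : ℂ) * f z‖ = (|C| + 1)⁻¹ * ‖f z‖ := fun z => by
    rw [norm_mul, Complex.norm_real, Real.norm_of_nonneg (by positivity)]
  have hloc := good_local h1 h2b hL r hr hK' hd' hl' F (fun x hx => (e2 x).2 (hF x hx))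
    (fun z => (((|C| + 1)⁻¹ : ℝ) : ℂ) * f z) (s2 ▸ hf.const_mul _)
    (fun z hz => mul_ne_zero (Complex.ofReal_ne_zero.2 (by positivity)) (hf0 z ((e1 z).1 hz)))
    (fun z hz => by
      rw [hn, inv_mul_le_iff₀ ha]
      have := hC z ((e1 z).1 hz)
      have := le_abs_self C
      linarith)
    (fun N => by
      obtain ⟨C', hC'⟩ := hfN N
      refine ⟨(|C| + 1)⁻¹ * C', fun z hz x hx => ?_⟩
      rw [hn, mul_assoc]
      exact mul_le_mul_of_nonneg_left (hC' z ((e1 z).1 hz) x hx) (by positivity))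
  choose! R hR hG using hloc
  have hZ : IsCompact {z | r z = 0} :=
    hK'.of_isClosed_subset (isClosed_eq hr.continuous continuous_const) (fun z hz => le_of_eq hz)
  obtain ⟨t, ht, hcov⟩ := hZ.elim_nhds_subcover (fun p => closedBall p (R p / 4))
    (fun p hp => closedBall_mem_nhds p (by have := hR p hp; positivity))
  have key : ∀ u : Finset (En n), (∀ p ∈ u, r p = 0) →
      Good r (⋃ p ∈ u, F ∩ closedBall p (R p / 4)) := by
    classical
    intro u
    induction u using Finset.induction_on with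
    | empty => intro _; simpa using good_empty r
    | insert a u _ ih =>
      intro hu
      rw [Finset.set_biUnion_insert]
      exact good_union (hG a (hu a (Finset.mem_insert_self _ _)))
        (ih fun p hp => hu p (Finset.mem_insert_of_mem hp))
  have hFe : (⋃ p ∈ t, F ∩ closedBall p (R p / 4)) = F := by
    refine Subset.antisymm (iUnion₂_subset fun _ _ => inter_subset_left) (fun x hx => ?_)
    obtain ⟨p, hp, hx'⟩ := mem_iUnion₂.1 (hcov ((e2 x).2 (hF x hx)))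
    exact mem_iUnion₂.2 ⟨p, hp, hx, hx'⟩
  obtain ⟨U, g, c, K, a1, a2, a3, a4, a5, a6, a7⟩ := hFe ▸ key t ht
  exact ⟨U, g, c, K, a1, a2, a3, a4, fun z hz => a5 z ((e3 z).2 hz), a6, a7⟩

end Pool.Agent.H708Z.NU
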